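import Pool.Agent.Helper13.TR.StB

/-! # TR module SEP, NLI -/

set_option autoImplicit false

namespace Pool.Agent.Helper13.TRM

open Set Topology Pool.Agent.Helper13.TR

theorem hSEP (hJOI : StJOI) (hMON : StMON) (hSDA : StSDA) : StSEP := by
  intro W _ _ A O₀ O₁ hA hO₀ hO₁ hdis hun ⟨x₀, hx₀⟩ ⟨x₁, hx₁⟩
  have hx₀A : x₀ ∈ Aᶜ := hun ▸ Or.inl hx₀
  have hx₁A : x₁ ∈ Aᶜ := hun ▸ Or.inr hx₁
  obtain ⟨e, _, he⟩ := (hJOI W univ).1 x₀ x₁
    (joinedIn_univ.2 (PathConnectedSpace.joined x₀ x₁))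
  have heC : e ∈ Cyc A 1 := by
    show bd 0 e ∈ cin Aᶜ 0
    rw [he]
    exact Submodule.sub_mem _ ((hJOI W Aᶜ).2.2.2.2 x₁ hx₁A) ((hJOI W Aᶜ).2.2.2.2 x₀ hx₀A)
  obtain ⟨ρ, hρ, _, ⟨b, rfl⟩, hsum⟩ := Submodule.mem_sup.1 (hA heC)
  have hbd : bd 0 ρ = Finsupp.single (pt x₁) 1 - Finsupp.single (pt x₀) 1 := by
    rw [← he, ← hsum, map_add, (hSDA W).1 0 b, add_zero]
  have hsat : ∀ a b : W, JoinedIn Aᶜ a b → (a ∈ O₁ ↔ b ∈ O₁) := by
    intro a b hab
    obtain ⟨γ, hγ⟩ := hab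
    have hpre : IsPreconnected (range γ) := isPreconnected_range γ.continuous
    have hsub : range γ ⊆ O₀ ∪ O₁ := by
      rintro _ ⟨t, rfl⟩
      rw [hun]
      exact hγ t
    have hcase : range γ ⊆ O₀ ∨ range γ ⊆ O₁ := by
      apply hpre.subset_or_subset hO₀ hO₁ (disjoint_iff_inter_eq_empty.2 hdis) hsub
    have hs : a ∈ range γ := ⟨0, γ.source⟩
    have ht : b ∈ range γ := ⟨1, γ.target⟩
    rcases hcase with h | h
    · constructor
      · intro h1
        exact absurd (show a ∈ O₀ ∩ O₁ from ⟨h hs, h1⟩) (by rw [hdis]; exact notMem_empty _)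
      · intro h1
        exact absurd (show b ∈ O₀ ∩ O₁ from ⟨h ht, h1⟩) (by rw [hdis]; exact notMem_empty _)
    · exact ⟨fun _ => h ht, fun _ => h hs⟩
  have h1 := (hJOI W Aᶜ).2.1 O₁ hsat ρ hρ
  rw [hbd, map_sub, ((hJOI W univ).2.2.1 O₁ x₁).1 hx₁,
    ((hJOI W univ).2.2.1 O₁ x₀).2 (fun h => absurd (show x₀ ∈ O₀ ∩ O₁ from ⟨hx₀, h⟩)
      (by rw [hdis]; exact notMem_empty _))] at h1
  norm_num at h1

theorem hNLI (hSEP : StSEP) (hMON : StMON) (hJOI : StJOI) : StNLI := by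
  intro W _ _ _ hW s hs
  obtain ⟨w⟩ : Nonempty W := inferInstance
  -- a second point
  obtain ⟨w', hw'⟩ : ∃ w' : W, w' ≠ w := by
    by_contra hcon
    push Not at hcon
    have h1 : (Finsupp.single (pt w) 1 : Ch W 0) ∈ Cyc ({w} : Set W) 0 := Submodule.mem_top
    obtain ⟨ρ, hρ, _, ⟨b, rfl⟩, hsum⟩ := Submodule.mem_sup.1 (hW.low w 0 (by norm_num) h1)
    have h2 : ({w} : Set W)ᶜ = ∅ := by
      ext z
      simp [hcon z]
    have h3 : ρ = 0 := by
      have h4 : ρ ∈ Finsupp.supported ℤ ℤ {σ : Sx W 0 | range σ ⊆ ({w} : Set W)ᶜ} := hρ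
      rw [Finsupp.mem_supported] at h4
      ext σ
      by_contra h5
      have h6 := h4 (Finsupp.mem_support_iff.2 h5)
      rw [h2] at h6
      have h7 : σ (stdSimplex.vertex 0) ∈ (∅ : Set W) := h6 ⟨_, rfl⟩
      exact h7
    rw [h3, zero_add] at hsum
    have h8 := (hJOI W univ).2.1 univ (fun a b _ => by simp) b (by
      rw [(hMON W).2.2.1]; trivial)
    rw [hsum, ((hJOI W univ).2.2.1 univ w).1 (mem_univ w)] at h8
    norm_num at h8
  -- order the two points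
  have main : ∀ a b : W, s a < s b → False := by
    intro a b hab
    have hpre : IsPreconnected (range s) := isPreconnected_range s.continuous
    obtain ⟨m, hm1, hm2⟩ := exists_between hab
    obtain ⟨u, hu⟩ := hpre.Icc_subset ⟨a, rfl⟩ ⟨b, rfl⟩ ⟨hm1.le, hm2.le⟩
    apply hSEP W {u} {z | s z < s u} {z | s u < s z} (hW.low u 1 (by norm_num))
      (isOpen_lt s.continuous continuous_const) (isOpen_lt continuous_const s.continuous)
    · ext z
      simp only [mem_inter_iff, mem_setOf_eq, mem_empty_iff_false, iff_false, not_and, not_lt]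
      exact fun h => h.le
    · ext z
      simp only [mem_union, mem_setOf_eq, mem_compl_iff, mem_singleton_iff]
      constructor
      · rintro (h | h) rfl <;> exact lt_irrefl _ h
      · intro h
        exact lt_or_gt_of_ne (fun h' => h (hs h'))
    · exact ⟨a, by rw [mem_setOf_eq, hu]; exact hm1⟩
    · exact ⟨b, by rw [mem_setOf_eq, hu]; exact hm2⟩
  rcases lt_or_gt_of_ne (fun h => hw' (hs h)) with h | h
  · exact main _ _ h
  · exact main _ _ h

end Pool.Agent.Helper13.TRM
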