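import Pool.Agent.Helper13.TR.StB

/-! # TR module CUT -/

set_option autoImplicit false

namespace Pool.Agent.Helper13.TRM

open Set Topology Pool.Agent.Helper13.TR

theorem hCUT (hMV : StMV) (hCON : StCON) (hMON : StMON) : StCUT := by
  intro W Z _ _ _ q K k σ hK ha hb
  -- an open set for every point
  have h1 : ∀ y : ↥K, ∃ E F : Set Z, IsClosed E ∧ IsClosed F ∧ E ∪ F = K ∧ (y : Z) ∉ F ∧
      σ ∈ Nul (q ⁻¹' E) k ∧ ∀ M : Set Z, IsClosed M → M ⊆ E ∩ F → PP (q ⁻¹' M) (k + 1) := by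
    intro y
    obtain ⟨O, hO, hyO, hσ⟩ := hCON.1 W Z q {(y : Z)} k σ (ha y y.2)
    obtain ⟨E, F, hE, hF, hEF, hEO, hyF, hM⟩ := hb y y.2 O hO (hyO rfl)
    exact ⟨E, F, hE, hF, hEF, hyF, ((hMON W).2.2.2.2.1 (q ⁻¹' E) (q ⁻¹' O) k
      (preimage_mono hEO)).2 hσ, hM⟩
  choose E F hE hF hEF hyF hσE hM using h1
  obtain ⟨t, ht⟩ := hK.elim_finite_subcover (fun y : ↥K => (F y)ᶜ) (fun y => (hF y).isOpen_compl)
    (fun y hy => mem_iUnion.2 ⟨⟨y, hy⟩, hyF ⟨y, hy⟩⟩)
  -- induction on a finite set of points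
  have key : ∀ t : Finset ↥K, ∀ G : Set Z, IsClosed G → G ⊆ K → G ⊆ ⋃ i ∈ t, (F i)ᶜ →
      σ ∈ Nul (q ⁻¹' G) k := by
    intro t
    classical
    induction t using Finset.induction_on with
    | empty =>
      intro G _ _ hG
      have : G = ∅ := by
        apply eq_empty_of_subset_empty
        simpa using hG
      rw [this, preimage_empty]
      apply Submodule.mem_sup_left
      rw [compl_empty, (hMON W).2.2.1 k]
      trivial
    | insert y t _ ih =>
      intro G hG hGK hGt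
      have e1 : G = (G ∩ E y) ∪ (G ∩ F y) := by
        rw [← inter_union_distrib_left, hEF y, inter_eq_left.2 hGK]
      have h2 : σ ∈ Nul (q ⁻¹' (G ∩ E y)) k :=
        ((hMON W).2.2.2.2.1 (q ⁻¹' (G ∩ E y)) (q ⁻¹' (E y)) k
          (preimage_mono inter_subset_right)).2 (hσE y)
      have h3 : σ ∈ Nul (q ⁻¹' (G ∩ F y)) k := by
        apply ih (G ∩ F y) (hG.inter (hF y)) (inter_subset_left.trans hGK)
        intro z hz
        have := hGt hz.1
        simp only [Finset.mem_insert, iUnion_iUnion_eq_or_left, mem_union, mem_compl_iff] at this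
        rcases this with h | h
        · exact absurd hz.2 h
        · exact h
      have h4 := (hMV W (q ⁻¹' (G ∩ E y)) (q ⁻¹' (G ∩ F y)) ((hG.inter (hE y)).preimage q.continuous)
        ((hG.inter (hF y)).preimage q.continuous) k).2.2.2.2
      rw [e1, preimage_union]
      apply h4 _ σ h2 h3
      rw [← preimage_inter]
      apply hM y _ ((hG.inter (hE y)).inter (hG.inter (hF y)))
      rintro z ⟨⟨_, h5⟩, _, h6⟩
      exact ⟨h5, h6⟩
  exact key t K hK.isClosed subset_rfl ht

end Pool.Agent.Helper13.TRM
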