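import Pool.Agent.Helper13.TR.StB

/-! # TR module T1 -/

set_option autoImplicit false

namespace Pool.Agent.Helper13.TRM

open Set Topology Pool.Agent.Helper13.TR

theorem hT1 (hT1W : StT1W) (hOPN : StOPN) : StT1 := by
  intro W Y _ _ _ _ _ hW hY s q hf w₀ r
  set C : Set W := pathComponent w₀ with hC
  have hCo : IsOpen C := IsOpen.pathComponent w₀
  have hCc : IsClosed C := IsClosed.pathComponent w₀
  have hpc : IsPathConnected C := isPathConnected_pathComponent
  have : PathConnectedSpace ↥C := isPathConnected_iff_pathConnectedSpace.mp hpc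
  have hMC : HM ↥C := hOPN W C hCo hW
  let s' : C(↥C, ℝ) := ⟨fun w => s w, by fun_prop⟩
  let q' : C(↥C, Y) := ⟨fun w => q w, by fun_prop⟩
  have hf' : IsClosedEmbedding (fun w : ↥C => (s' w, q' w)) :=
    hf.comp hCc.isClosedEmbedding_subtypeVal
  obtain ⟨w, h1, h2⟩ := hT1W ↥C Y hMC hY s' q' hf' ⟨w₀, mem_pathComponent_self w₀⟩ r
  exact ⟨w, h1, h2⟩

end Pool.Agent.Helper13.TRM
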