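import Pool.Agent.Helper13.TW.StB

/-! # TW module WIN -/

set_option autoImplicit false

namespace Pool.Agent.Helper13.TRM

open Set Topology Pool.Agent.Helper13.TR Pool.Agent.Helper13.TW

theorem hWIN (hMON : StMON) (hCON : StCON) (hSDA : StSDA) : StWIN := by
  intro S _ _ _ ω hω hnc
  -- elements of `Cyc {x} 2`
  have hcyc : ∀ (e : Ch S 2) (x : S), e ∈ Cyc ({x} : Set S) 2 ↔ bd 1 e ∈ cin ({x} : Set S)ᶜ 1 :=
    fun e x => Iff.rfl
  -- 2-cycles have value zero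
  have hzero : ∀ (u : Ch S 2) (x : S), bd 1 u = 0 → ω x u = 0 := by
    intro u x hu
    obtain ⟨Q, hQ, huQ, _⟩ := hCON.2 S 2 u
    obtain ⟨x₀, hx₀⟩ : ∃ x₀ : S, x₀ ∉ Q := by
      by_contra h
      push Not at h
      apply hnc
      rw [← isCompact_univ_iff]
      rwa [← eq_univ_of_forall h]
    have h1 : ω x u = ω x₀ u := by
      apply hω.loc u univ isOpen_univ
      · rw [hu]; exact Submodule.zero_mem _
      · exact joinedIn_univ.2 (PathConnectedSpace.joined x x₀)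
    rw [h1]
    apply hω.nul
    apply Submodule.mem_sup_left
    exact (hMON S).1 Q {x₀}ᶜ 2 (fun z hz h => hx₀ (h ▸ hz)) huQ
  have h1 : ∀ (e : Ch S 2) (x : S), bd 1 e ∈ cin ({x} : Set S)ᶜ 1 → W ω (bd 1 e) x = ω x e := by
    intro e x he
    have hex : ∃ e' : Ch S 2, bd 1 e' = bd 1 e := ⟨e, rfl⟩
    have hW : W ω (bd 1 e) x = ω x (Classical.choose hex) := by
      unfold W
      rw [dif_pos hex]
    have hch := Classical.choose_spec hex
    set e' := Classical.choose hex with he'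
    rw [hW]
    have h2 : e = e' + (e - e') := by abel
    have h3 : bd 1 (e - e') = 0 := by rw [map_sub, hch, sub_self]
    have h4 : ω x e = ω x e' + ω x (e - e') := by
      conv_lhs => rw [h2]
      apply hω.add
      · rw [hcyc, hch]; exact he
      · rw [hcyc, h3]; exact Submodule.zero_mem _
    rw [h4, hzero _ x h3, add_zero]
  have h5 : ∀ (e : Ch S 2) (Q : Set S), e ∈ cin Q 2 → ∀ x ∉ Q, W ω (bd 1 e) x = 0 := by
    intro e Q he x hx
    have h6 : e ∈ cin ({x} : Set S)ᶜ 2 := (hMON S).1 Q {x}ᶜ 2 (fun z hz h => hx (h ▸ hz)) he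
    rw [h1 e x ((hMON S).2.2.2.1 {x}ᶜ 1 e h6)]
    exact hω.nul x e (Submodule.mem_sup_left h6)
  have hadd : ∀ (z z' : Ch S 1) (x : S), (∃ e : Ch S 2, bd 1 e = z) → (∃ e : Ch S 2, bd 1 e = z') →
      z ∈ cin ({x} : Set S)ᶜ 1 → z' ∈ cin ({x} : Set S)ᶜ 1 → W ω (z + z') x = W ω z x + W ω z' x := by
    rintro _ _ x ⟨e, rfl⟩ ⟨e', rfl⟩ hz hz'
    rw [← map_add, h1 (e + e') x (by rw [map_add]; exact Submodule.add_mem _ hz hz'), h1 e x hz,
      h1 e' x hz']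
    exact hω.add x e hz e' hz'
  have hneg : ∀ (z : Ch S 1) (x : S), (∃ e : Ch S 2, bd 1 e = z) →
      z ∈ cin ({x} : Set S)ᶜ 1 → W ω (-z) x = -W ω z x := by
    rintro _ x ⟨e, rfl⟩ hz
    have h7 := hadd (bd 1 e) (-(bd 1 e)) x ⟨e, rfl⟩ ⟨-e, by rw [map_neg]⟩ hz
      (Submodule.neg_mem _ hz)
    have h8 : W ω (0 : Ch S 1) x = 0 := by
      have := h5 0 ∅ (Submodule.zero_mem _) x (notMem_empty x)
      rwa [map_zero] at this
    rw [add_neg_cancel, h8] at h7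
    linarith
  refine ⟨h1, ?_, ?_, ?_, h5⟩
  · intro z z' x hz hz' hzx hzx'
    refine ⟨hadd z z' x hz hz' hzx hzx', hneg z x hz hzx, ?_⟩
    obtain ⟨e', he'⟩ := hz'
    rw [sub_eq_add_neg, hadd z (-z') x hz ⟨-e', by rw [map_neg, he']⟩ hzx
      (Submodule.neg_mem _ hzx'), hneg z' x ⟨e', he'⟩ hzx']
    ring
  · rintro _ O ⟨e, rfl⟩ hO hz x y hxy
    have hxO : x ∈ O := hxy.source_mem
    have hyO : y ∈ O := hxy.target_mem
    have hm : ∀ w ∈ O, bd 1 e ∈ cin ({w} : Set S)ᶜ 1 := fun w hw =>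
      (hMON S).1 Oᶜ {w}ᶜ 1 (fun z hz h => hz (h ▸ hw)) hz
    rw [h1 e x (hm x hxO), h1 e y (hm y hyO)]
    exact hω.loc e O hO hz x y hxy
  · rintro _ ⟨e, rfl⟩
    obtain ⟨Q, hQ, heQ, _⟩ := hCON.2 S 2 e
    exact ⟨Q, hQ, h5 e Q heQ⟩

end Pool.Agent.Helper13.TRM
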